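import Pool.Agent.Run7.h608.BC.Iface

set_option autoImplicit false

open MeasureTheory Set Filter Topology
open scoped ENNReal ContDiff

namespace Run7.h116.BC

open Run7.h608.BC

theorem t_SAN (hK : S_KER) (hT : S_TAI) : S_SAN := by
  intro β x C c hβ hc hG hL p q hpq
  have hC := hG.1
  have key : ∀ g : ℝ → ℂ, Tst g → (∀ t, (T g t).im = 0) →
      Tendsto (fun n : ℕ => LR β x n (fun t => (T g t).re)) atTop (𝓝 (c * (g 0).re)) := by
    intro g hg him
    have h1 := hL g hg
    have h2 : ∀ n, L β x n (T g) = ((LR β x n (fun t => (T g t).re) : ℝ) : ℂ) := by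
      intro n
      rw [← L_ofReal]
      congr 1
      funext t
      apply Complex.ext
      · simp
      · simp [him]
    have h3 := (Complex.continuous_re.tendsto _).comp h1
    have h4 : ((c : ℂ) * g 0).re = c * (g 0).re := by simp
    rw [h4] at h3
    refine h3.congr fun n => ?_
    simp only [Function.comp, h2, Complex.ofReal_re]
  have hre : ∀ (z : ℂ) (r η : ℝ), ‖z - (r : ℂ)‖ ≤ η → r - η ≤ z.re ∧ z.re ≤ r + η := by
    intro z r η h
    have h1 := (Complex.abs_re_le_norm (z - (r : ℂ))).trans h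
    rw [abs_le] at h1
    simp only [Complex.sub_re, Complex.ofReal_re] at h1
    constructor <;> linarith [h1.1, h1.2]
  have hind : ∀ t, 0 ≤ ind p q t ∧ ind p q t ≤ 1 := by
    intro t
    unfold ind
    constructor
    · exact indicator_nonneg (fun _ _ => zero_le_one) t
    · by_cases h : t ∈ Icc p q
      · rw [indicator_of_mem h]
      · rw [indicator_of_notMem h]; exact zero_le_one
  rw [Metric.tendsto_atTop]
  intro ε hε
  have hqp : 0 < q - p := sub_pos.2 hpq
  obtain ⟨M, hM⟩ : ∃ M : ℝ, M = (c + 1 + 2 * (c * (q - p) + c + 1)) + (3 * c + 1 + 8 * C) := ⟨_, rfl⟩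
  have hcq : 0 ≤ c * (q - p) := mul_nonneg hc hqp.le
  have hM1 : 1 ≤ M := by rw [hM]; linarith
  obtain ⟨η, hη, hη1, hη2, hη3⟩ : ∃ η : ℝ, 0 < η ∧ η ≤ 1 / 2 ∧ η ≤ (q - p) / 4 ∧ η * M ≤ ε / 2 := by
    refine ⟨min (1 / 2) (min ((q - p) / 4) (ε / (2 * M))), ?_, min_le_left _ _,
      (min_le_right _ _).trans (min_le_left _ _), ?_⟩
    · refine lt_min (by norm_num) (lt_min (by linarith) ?_)
      positivity
    · have h1 : min (1 / 2) (min ((q - p) / 4) (ε / (2 * M))) ≤ ε / (2 * M) :=
        (min_le_right _ _).trans (min_le_right _ _)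
      calc _ ≤ ε / (2 * M) * M := mul_le_mul_of_nonneg_right h1 (by linarith)
        _ = ε / 2 := by field_simp
  obtain ⟨g1, hg1, a1, b1, c1, d1⟩ := hK p q η hpq hη (by linarith)
  obtain ⟨g2, hg2, a2, b2, c2, d2⟩ := hK (p + η) (q - η) η (by linarith) hη (by linarith)
  have k1 := key g1 hg1 (fun t => (a1 t).1)
  have k2 := key g2 hg2 (fun t => (a2 t).1)
  rw [Metric.tendsto_atTop] at k1 k2
  obtain ⟨N1, hN1⟩ := k1 η hη
  obtain ⟨N2, hN2⟩ := k2 η hη
  refine ⟨max N1 N2, fun n hn => ?_⟩
  have e1 := hN1 n ((le_max_left _ _).trans hn)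
  have e2 := hN2 n ((le_max_right _ _).trans hn)
  rw [Real.dist_eq, abs_lt] at e1 e2
  obtain ⟨r1, r1'⟩ := hre _ _ _ c1
  obtain ⟨r2, r2'⟩ := hre _ _ _ c2
  -- upper
  have up : (1 - η) * LR β x n (ind p q) ≤ LR β x n (fun t => (T g1 t).re) := by
    rw [← LR_smul]
    refine LR_mono β x hβ n _ _ fun t => ?_
    by_cases h : t ∈ Icc p q
    · have : ind p q t = 1 := by unfold ind; rw [indicator_of_mem h]
      rw [this, mul_one]
      exact b1 t h
    · have : ind p q t = 0 := by unfold ind; rw [indicator_of_notMem h]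
      rw [this, mul_zero]
      exact (a1 t).2.1
  -- lower
  have low : LR β x n (fun t => (T g2 t).re) ≤ LR β x n (ind p q) + η * (8 * C) := by
    have h1 : LR β x n (fun t => (T g2 t).re) ≤
        LR β x n (fun t => ind p q t + η * (1 / (1 + (t / 1) ^ 2))) := by
      refine LR_mono β x hβ n _ _ fun t => ?_
      by_cases h : t ∈ Icc p q
      · have h2 : ind p q t = 1 := by unfold ind; rw [indicator_of_mem h]
        rw [h2]
        have h3 : 0 ≤ η * (1 / (1 + (t / 1) ^ 2)) := by positivity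
        linarith [(a2 t).2.2]
      · have h2 : ind p q t = 0 := by unfold ind; rw [indicator_of_notMem h]
        have h3 : t ∉ Icc (p + η - η) (q - η + η) := by
          rw [add_sub_cancel_right, sub_add_cancel]; exact h
        have h4 := d2 t h3
        rw [h2, zero_add, div_one, mul_one_div]
        exact h4
    rw [LR_add, LR_smul] at h1
    have h5 := hT β x C hβ hG n 1 le_rfl
    rw [mul_one] at h5
    have h6 := mul_le_mul_of_nonneg_left h5 hη.le
    linarith
  have hLR0 : 0 ≤ LR β x n (ind p q) := by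
    have h1 := LR_mono β x hβ n (fun _ => (0 : ℝ)) (ind p q) fun t => (hind t).1
    have h2 : LR β x n (fun _ => (0 : ℝ)) = 0 := by
      have := LR_smul β x n 0 (fun _ => (0 : ℝ))
      simpa using this
    rw [h2] at h1
    exact h1
  generalize LR β x n (ind p q) = A at *
  generalize LR β x n (fun t => (T g1 t).re) = A1 at *
  generalize LR β x n (fun t => (T g2 t).re) = A2 at *
  have u1 : c * (g1 0).re ≤ c * (q - p + η) := mul_le_mul_of_nonneg_left r1' hc
  have u2 : c * (q - η - (p + η) - η) ≤ c * (g2 0).re := mul_le_mul_of_nonneg_left r2 hc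
  have cη : c * η ≤ c * (1 / 2) := mul_le_mul_of_nonneg_left hη1 hc
  -- crude bound
  have f1 : (1 - η) * A ≤ c * (q - p) + c * η + η := by nlinarith
  have f2 : A ≤ 2 * (c * (q - p) + c + 1) := by nlinarith
  have f3 : A ≤ c * (q - p) + η * (c + 1 + 2 * (c * (q - p) + c + 1)) := by
    have := mul_le_mul_of_nonneg_left f2 hη.le
    nlinarith
  have f4 : c * (q - p) - η * (3 * c + 1 + 8 * C) ≤ A := by nlinarith
  have f5 : 0 ≤ η * (3 * c + 1 + 8 * C) := mul_nonneg hη.le (by linarith)
  have f6 : 0 ≤ η * (c + 1 + 2 * (c * (q - p) + c + 1)) := mul_nonneg hη.le (by linarith)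
  have f7 : η * M = η * (c + 1 + 2 * (c * (q - p) + c + 1)) + η * (3 * c + 1 + 8 * C) := by
    rw [hM]; ring
  rw [Real.dist_eq, abs_lt]
  constructor <;> linarith

end Run7.h116.BC
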